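import Pool.Agent.Q212.BL.Cont
import Pool.Agent.Q208.Null

/-!
# Maps of a given modulus between dense sets of size `ℵ₁`, and additivity of the null ideal
-/

set_option autoImplicit false

open Cardinal Set Filter Topology

namespace Pool.Agent.Q212.BL

/-- `f` has the modulus of continuity `m`: for all `k` the first `m k` terms of `x` determine the
first `k` terms of `f x`. -/
def Mod (m : ℕ → ℕ) (f : (ℕ → ℕ) → ℕ → ℕ) : Prop :=
  ∀ (k : ℕ) (x y : ℕ → ℕ), (∀ i < m k, x i = y i) → ∀ i < k, f x i = f y i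

/-- For all `ℵ₁`-dense sets `A`, `B` in the Baire space some map of modulus `m` of the space into
itself maps `A` onto an uncountable subset of `B`. -/
def WeakMod (m : ℕ → ℕ) : Prop :=
  ∀ A B : Set (ℕ → ℕ), Dense1 A → Dense1 B →
    ∃ f : (ℕ → ℕ) → ℕ → ℕ, Mod m f ∧ MapsTo f A B ∧ ¬ (f '' A).Countable

section

variable (p : ℕ → ℕ) (x : W → ℕ → ℕ) (y : W → ℕ → Bool) (e : W → ℕ → W)

open Classical in
/-- the sequence which is `s` up to `n` and then the sparse sequence of the bits of `w` -/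
noncomputable def wd (n : ℕ) (s : List ℕ) (w : ℕ → Bool) (i : ℕ) : ℕ :=
  if i < n then s.getD i 0 else if ∃ l, p l = i ∧ w l = true then 1 else 0

/-- the sequences which contain all earlier data -/
def zb (η : W) (j : ℕ) : ℕ :=
  Encodable.encode ((List.range (j + 1)).map fun k =>
    Nat.pair (x (e η k) j) (y (e η k) j).toNat)

/-- the decoder -/
def dc (k v : ℕ) : ℕ × ℕ :=
  Nat.unpair (((Encodable.decode v : Option (List ℕ)).getD []).getD k 0)

theorem dc_zb (η : W) (k j : ℕ) (h : k ≤ j) :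
    dc k (zb x y e η j) = (x (e η k) j, (y (e η k) j).toNat) := by
  unfold dc zb
  rw [Encodable.encodek, Option.getD_some, List.getD_eq_getElem _ _ (by simpa using Nat.lt_succ_of_le h)]
  simp

theorem wd_inj (hp : Function.Injective p) {w w' : ℕ → Bool} (h : wd p 0 [] w = wd p 0 [] w') :
    w = w' := by
  funext l
  have h1 := congrFun h (p l)
  have h2 : ∀ v : ℕ → Bool, wd p 0 [] v (p l) = if v l = true then 1 else 0 := by
    intro v
    unfold wd
    rw [if_neg (Nat.not_lt_zero _)]
    congr 1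
    refine propext ⟨?_, fun h => ⟨l, rfl, h⟩⟩
    rintro ⟨l', h3, h4⟩
    rwa [hp h3] at h4
  rw [h2, h2] at h1
  rw [Bool.eq_iff_iff]
  constructor
  · intro h3
    by_contra h4
    rw [if_pos h3, if_neg h4] at h1
    exact one_ne_zero h1
  · intro h3
    by_contra h4
    rw [if_neg h4, if_pos h3] at h1
    exact zero_ne_one h1

theorem wa_range (hp : Function.Injective p) (hy : Function.Injective y) :
    ¬ (range fun ξ => wd p 0 [] (y ξ)).Countable := by
  intro h
  refine not_countable_univ ?_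
  rw [← image_univ] at h
  refine Set.countable_of_injective_of_countable_image (f := fun ξ => wd p 0 [] (y ξ)) ?_ h
  intro ξ _ ξ' _ hh
  exact hy (wd_inj p hp hh)

theorem zb_range (hy : Function.Injective y) (he : ∀ η ξ, ξ ≤ η → ∃ k, e η k = ξ) :
    ¬ (range (zb x y e)).Countable := by
  intro h
  have h1 : (range fun ξ => fun j => (y ξ j).toNat).Countable := by
    refine (h.biUnion fun v _ => countable_iUnion fun k : ℕ =>
      countable_AE fun j => (dc k (v j)).2).mono ?_
    rintro _ ⟨ξ, rfl⟩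
    obtain ⟨k, hk⟩ := he ξ ξ le_rfl
    refine mem_biUnion (mem_range_self ξ) (mem_iUnion.2 ⟨k, k, fun j hj => ?_⟩)
    beta_reduce
    rw [dc_zb x y e ξ k j hj, hk]
  refine not_countable_univ ?_
  rw [← image_univ] at h1
  refine Set.countable_of_injective_of_countable_image
    (f := fun ξ => fun j => (y ξ j).toNat) ?_ h1
  intro ξ _ ξ' _ hh
  apply hy
  funext j
  have h2 : (y ξ j).toNat = (y ξ' j).toNat := congrFun hh j
  revert h2
  cases y ξ j <;> cases y ξ' j <;> simp

theorem eq_wd (a : ℕ → ℕ) (ξ : W) (n : ℕ)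
    (hn : ∀ i, n ≤ i → a i = wd p 0 [] (y ξ) i) :
    a = wd p n ((List.range n).map a) (y ξ) := by
  funext i
  by_cases h : i < n
  · unfold wd
    rw [if_pos h, List.getD_eq_getElem _ _ (by simpa using h)]
    simp
  · rw [hn i (not_lt.1 h)]
    unfold wd
    rw [if_neg (Nat.not_lt_zero _), if_neg h]

theorem wd_congr (hp : StrictMono p) (n : ℕ) (s : List ℕ) (w w' : ℕ → Bool) (N : ℕ)
    (h : ∀ l < N, w l = w' l) : ∀ i < p N, wd p n s w i = wd p n s w' i := by
  intro i hi
  unfold wd
  have h1 : (∃ l, p l = i ∧ w l = true) ↔ ∃ l, p l = i ∧ w' l = true := by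
    refine exists_congr fun l => and_congr_right fun hl => ?_
    rw [h l (hp.lt_iff_lt.1 (hl ▸ hi))]
  by_cases h2 : ∃ l, p l = i ∧ w l = true
  · rw [if_pos h2, if_pos (h1.1 h2)]
  · rw [if_neg h2, if_neg fun h3 => h2 (h1.2 h3)]

/-- the slaloms -/
noncomputable def slm (f : (ℕ → ℕ) → ℕ → ℕ) (n : ℕ) (s : List ℕ) (k j : ℕ) : Finset ℕ :=
  (Finset.range (Nat.log 2 j + 1)).powerset.image fun t =>
    (dc k (f (wd p n s fun l => decide (l ∈ t)) j)).1

theorem card_slm (f : (ℕ → ℕ) → ℕ → ℕ) (n : ℕ) (s : List ℕ) (k j : ℕ) (hj : j ≠ 0) :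
    (slm p f n s k j).card ≤ 2 * j := by
  refine Finset.card_image_le.trans ?_
  rw [Finset.card_powerset, Finset.card_range, pow_succ, mul_comm]
  exact Nat.mul_le_mul_left 2 (Nat.pow_log_le_self 2 hj)

end

theorem add_null {m : ℕ → ℕ} (h : WeakMod m) : ℵ₁ < Q208.bloc := by
  by_contra hlt
  rw [not_lt] at hlt
  obtain ⟨x0, hx0⟩ := Q208.exists_family_sq
  have hne : Nonempty Q208.BI := by
    rw [← mk_ne_zero_iff, Q208.mk_BI]
    exact (aleph0_pos.trans_le Q208.aleph0_le_bloc).ne'
  obtain ⟨g, hg⟩ : ∃ g : W → Q208.BI, Function.Surjective g := by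
    have h1 : #Q208.BI ≤ #W := by
      rw [Q208.mk_BI, mk_W]
      exact hlt
    obtain ⟨i⟩ := Cardinal.le_def _ _ |>.1 h1
    exact ⟨Function.invFun i, Function.invFun_surjective i.injective⟩
  let x : W → ℕ → ℕ := fun ξ => x0 (g ξ)
  obtain ⟨y, hy⟩ := exists_injective_bool
  choose e he using exists_enum
  let p : ℕ → ℕ := fun l => l + ∑ i ∈ Finset.range (2 ^ l + 1), m i
  have hp : StrictMono p := by
    refine strictMono_nat_of_lt_succ fun l => ?_
    have h1 : ∑ i ∈ Finset.range (2 ^ l + 1), m i ≤ ∑ i ∈ Finset.range (2 ^ (l + 1) + 1), m i := by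
      refine Finset.sum_le_sum_of_subset (Finset.range_subset_range.2 ?_)
      have := Nat.pow_le_pow_right (n := 2) (by norm_num) (Nat.le_succ l)
      omega
    show l + ∑ i ∈ Finset.range (2 ^ l + 1), m i <
      l + 1 + ∑ i ∈ Finset.range (2 ^ (l + 1) + 1), m i
    omega
  have hpm : ∀ j, m (j + 1) ≤ p (Nat.log 2 j + 1) := by
    intro j
    have h1 : j < 2 ^ (Nat.log 2 j + 1) := Nat.lt_pow_succ_log_self (by norm_num) j
    have h2 : m (j + 1) ≤ ∑ i ∈ Finset.range (2 ^ (Nat.log 2 j + 1) + 1), m i :=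
      Finset.single_le_sum (f := m) (fun _ _ => Nat.zero_le _) (Finset.mem_range.2 (by omega))
    exact h2.trans (Nat.le_add_left _ _)
  obtain ⟨f, h1, h2, h3⟩ := h (FM fun ξ => wd p 0 [] (y ξ)) (FM (zb x y e))
    (dense1_FM _ (wa_range p y hp.injective hy)) (dense1_FM _ (zb_range x y e hy he))
  -- the slalom
  let T : ℕ → ℕ → Finset ℕ := fun i j =>
    match (Encodable.decode i : Option (ℕ × List ℕ × ℕ)) with
    | some q => slm p f q.1 q.2.1 q.2.2 j
    | none => ∅
  have hT : ∀ i j, j ≠ 0 → (T i j).card ≤ 2 * j := by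
    intro i j hj
    show (match (Encodable.decode i : Option (ℕ × List ℕ × ℕ)) with
      | some q => slm p f q.1 q.2.1 q.2.2 j
      | none => ∅).card ≤ 2 * j
    cases (Encodable.decode i : Option (ℕ × List ℕ × ℕ)) with
    | none => simp
    | some q => exact card_slm p f _ _ _ j hj
  apply hx0
  refine ⟨fun j => (Finset.range (j / 2)).biUnion fun i => T i j, fun j => ?_, fun b => ?_⟩
  · rcases Nat.eq_zero_or_pos j with h0 | h0
    · subst h0
      simp
    · refine (Finset.card_biUnion_le_card_mul _ _ (2 * j) fun i _ => hT i j h0.ne').trans ?_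
      rw [Finset.card_range]
      have := Nat.div_mul_le_self j 2
      nlinarith
  · obtain ⟨ζ, rfl⟩ := hg b
    -- an index above `ζ` in the image
    obtain ⟨a, ha, η, hη, hζ⟩ : ∃ a ∈ FM fun ξ => wd p 0 [] (y ξ), ∃ η, AE (f a) (zb x y e η) ∧
        ζ ≤ η := by
      by_contra hcon
      push Not at hcon
      apply h3
      refine ((countable_Iic ζ).biUnion fun η _ => countable_AE (zb x y e η)).mono ?_
      rintro _ ⟨a, ha, rfl⟩
      obtain ⟨η, hη⟩ := h2 ha
      exact mem_biUnion (show η ∈ Iic ζ from (hcon a ha η hη).le) hη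
    obtain ⟨k, hk⟩ := he η ζ hζ
    obtain ⟨ξ, n, hn⟩ := ha
    obtain ⟨n1, hn1⟩ := hη
    have ha2 := eq_wd p y a ξ n hn
    let i := Encodable.encode (n, (List.range n).map a, k)
    have hTi : ∀ j, T i j = slm p f n ((List.range n).map a) k j := by
      intro j
      show (match (Encodable.decode (Encodable.encode (n, (List.range n).map a, k)) :
        Option (ℕ × List ℕ × ℕ)) with
        | some q => slm p f q.1 q.2.1 q.2.2 j
        | none => ∅) = _
      rw [Encodable.encodek]
    show ∀ᶠ j in atTop, x0 (g ζ) j ∈ (Finset.range (j / 2)).biUnion fun i => T i j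
    filter_upwards [eventually_ge_atTop (2 * (i + 1) + k + n1)] with j hj
    refine Finset.mem_biUnion.2 ⟨i, Finset.mem_range.2 (by omega), ?_⟩
    rw [hTi]
    refine Finset.mem_image.2 ⟨(Finset.range (Nat.log 2 j + 1)).filter fun l => y ξ l = true,
      Finset.mem_powerset.2 (Finset.filter_subset _ _), ?_⟩
    have h4 : f (wd p n ((List.range n).map a) fun l => decide (l ∈
        (Finset.range (Nat.log 2 j + 1)).filter fun l => y ξ l = true)) j = f a j := by
      refine h1 (j + 1) _ _ (fun i hi => ?_) j (Nat.lt_succ_self j)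
      rw [show a i = wd p n ((List.range n).map a) (y ξ) i from congrFun ha2 i]
      refine wd_congr p hp n _ _ _ (Nat.log 2 j + 1) (fun l hl => ?_) i
        (lt_of_lt_of_le hi (hpm j))
      rw [Bool.eq_iff_iff]
      simp [hl]
    rw [h4, hn1 j (by omega), dc_zb x y e η k j (by omega), hk]

theorem null_union {m : ℕ → ℕ} (h : WeakMod m) {ι : Type} (hι : #ι ≤ ℵ₁) (A : ι → Set ℝ)
    (hA : ∀ i, MeasureTheory.volume (A i) = 0) : MeasureTheory.volume (⋃ i, A i) = 0 :=
  Q208.null_iUnion MeasureTheory.volume (lt_of_le_of_lt hι (add_null h)) hA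

theorem BALip.weakMod (h : BALip ℕ) : WeakMod fun k => k := by
  intro A B hA hB
  obtain ⟨f, h1, h2, h3⟩ := h A B hA hB
  exact ⟨f, h1, h3, fun hc => hA.not_countable
    (Set.countable_of_injective_of_countable_image h2 hc)⟩

end Pool.Agent.Q212.BL
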