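import Mathlib

/-!
# Dense sets of size `ℵ₁` in spaces of sequences
-/

set_option autoImplicit false

open Cardinal Set Filter Topology

namespace Pool.Agent.Q212.BL

/-- the well-ordered set of the countable ordinals -/
abbrev W : Type := (ℵ₁ : Cardinal.{0}).ord.ToType

theorem mk_W : #W = ℵ₁ := Cardinal.mk_ord_toType _

theorem countable_Iic (a : W) : (Set.Iic a).Countable := by
  have h3 := Cardinal.mk_Iio_toType_ord_lt a
  have h4 : (Set.Iio a).Countable := by
    rw [← Cardinal.le_aleph0_iff_set_countable]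
    have h6 : #(Set.Iio a) < Order.succ ℵ₀ := by
      rw [Cardinal.succ_aleph0]
      exact h3
    exact Order.lt_succ_iff.1 h6
  have h5 : Set.Iic a = insert a (Set.Iio a) := by
    ext b
    simp [le_iff_eq_or_lt]
  rw [h5]
  exact h4.insert a

theorem not_countable_univ : ¬ (Set.univ : Set W).Countable := by
  rw [← Cardinal.le_aleph0_iff_set_countable, Cardinal.mk_univ, Cardinal.mk_ord_toType]
  exact not_le.2 Cardinal.aleph0_lt_aleph_one

/-- an enumeration of the elements `≤ η` -/
theorem exists_enum (η : W) : ∃ e : ℕ → W, ∀ ξ ≤ η, ∃ k, e k = ξ := by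
  obtain ⟨e, he⟩ := (countable_Iic η).exists_eq_range ⟨η, Set.mem_Iic.2 le_rfl⟩
  exact ⟨e, fun ξ hξ => by
    have : ξ ∈ range e := he ▸ hξ
    exact this⟩

theorem exists_injective_bool : ∃ x : W → ℕ → Bool, Function.Injective x := by
  have h : #W ≤ #(ℕ → Bool) := by
    rw [mk_W]
    simpa using Cardinal.aleph_one_le_continuum
  obtain ⟨f⟩ := Cardinal.le_def _ _ |>.1 h
  exact ⟨f, f.injective⟩

/-- A function with countable fibres does not decrease all but countably many elements. -/
theorem not_countable_le {η : W → W} (h : ∀ γ, {ξ | η ξ = γ}.Countable) :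
    ¬ {ξ | ξ ≤ η ξ}.Countable := by
  intro hZ
  let S : ℕ → Set W := fun n => Nat.rec {ξ | ξ ≤ η ξ} (fun _ T => η ⁻¹' T) n
  have hS : ∀ n, (S n).Countable := by
    intro n
    induction n with
    | zero => exact hZ
    | succ n ih =>
      have h1 : S (n + 1) = ⋃ γ ∈ S n, {ξ | η ξ = γ} := by
        ext ξ
        simp [S]
      rw [h1]
      exact ih.biUnion fun γ _ => h γ
  have h2 : ∀ ξ : W, ξ ∈ ⋃ n, S n := by
    intro ξ
    induction ξ using WellFoundedLT.induction with
    | ind ξ ih =>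
      by_cases hξ : ξ ≤ η ξ
      · exact mem_iUnion.2 ⟨0, hξ⟩
      · obtain ⟨n, hn⟩ := mem_iUnion.1 (ih (η ξ) (not_le.1 hξ))
        exact mem_iUnion.2 ⟨n + 1, hn⟩
  refine not_countable_univ ((countable_iUnion hS).mono fun ξ _ => h2 ξ)

variable {α : Type}

/-- `x` is a finite modification of `y` -/
def AE (x y : ℕ → α) : Prop := ∃ n, ∀ i, n ≤ i → x i = y i

theorem AE.symm {x y : ℕ → α} (h : AE x y) : AE y x := by
  obtain ⟨n, hn⟩ := h
  exact ⟨n, fun i hi => (hn i hi).symm⟩

theorem AE.trans {x y z : ℕ → α} (h : AE x y) (h' : AE y z) : AE x z := by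
  obtain ⟨n, hn⟩ := h
  obtain ⟨m, hm⟩ := h'
  exact ⟨max n m, fun i hi => (hn i ((le_max_left _ _).trans hi)).trans
    (hm i ((le_max_right _ _).trans hi))⟩

theorem AE.refl (x : ℕ → α) : AE x x := ⟨0, fun _ _ => rfl⟩

theorem countable_AE [Countable α] (y : ℕ → α) : {x | AE x y}.Countable := by
  have h1 : {x | AE x y} ⊆ ⋃ n : ℕ, range (fun (g : Fin n → α) (i : ℕ) =>
      if h : i < n then g ⟨i, h⟩ else y i) := by
    rintro x ⟨n, hn⟩
    refine mem_iUnion.2 ⟨n, fun i => x i, ?_⟩
    funext i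
    by_cases h : i < n
    · simp [h]
    · simp only [h, dif_neg, not_false_eq_true]
      exact (hn i (not_lt.1 h)).symm
  exact (countable_iUnion fun n => countable_range _).mono h1

/-- the set of the finite modifications of the `z η` -/
def FM (z : W → ℕ → α) : Set (ℕ → α) := {x | ∃ η, AE x (z η)}

/-- `A` has exactly `ℵ₁` points in every nonempty open set. -/
def Dense1 {X : Type} [TopologicalSpace X] (A : Set X) : Prop :=
  ∀ U : Set X, IsOpen U → U.Nonempty → #(A ∩ U : Set X) = ℵ₁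

theorem mk_FM_le [Countable α] (z : W → ℕ → α) : #(FM z) ≤ ℵ₁ := by
  have h1 : FM z = ⋃ η, {x | AE x (z η)} := by
    ext x
    simp [FM]
  rw [h1]
  refine (Cardinal.mk_iUnion_le _).trans ?_
  rw [mk_W]
  have h2 : ⨆ η, #{x | AE x (z η)} ≤ ℵ₀ := ciSup_le' fun η => (countable_AE (z η)).le_aleph0
  refine (mul_le_mul_right h2 ℵ₁).trans ?_
  rw [Cardinal.mul_aleph0_eq Cardinal.aleph0_lt_aleph_one.le]

theorem dense1_FM [Countable α] [TopologicalSpace α] (z : W → ℕ → α)
    (hz : ¬ (range z).Countable) : Dense1 (FM z) := by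
  intro U hU hne
  refine le_antisymm ((Cardinal.mk_le_mk_of_subset inter_subset_left).trans (mk_FM_le z)) ?_
  by_contra hlt
  rw [not_le] at hlt
  have hc : (FM z ∩ U).Countable := by
    rw [← Cardinal.le_aleph0_iff_set_countable]
    have h6 : #(FM z ∩ U : Set (ℕ → α)) < Order.succ ℵ₀ := by
      rw [Cardinal.succ_aleph0]
      exact hlt
    exact Order.lt_succ_iff.1 h6
  apply hz
  refine (hc.biUnion fun x _ => countable_AE x).mono ?_
  rintro _ ⟨η, rfl⟩
  obtain ⟨u, hu⟩ := hne
  have ht : Tendsto (fun (n : ℕ) (i : ℕ) => if i < n then u i else z η i) atTop (𝓝 u) := by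
    rw [tendsto_pi_nhds]
    intro i
    refine tendsto_const_nhds.congr' ?_
    filter_upwards [eventually_gt_atTop i] with n hn
    rw [if_pos hn]
  obtain ⟨n, hn⟩ := (ht.eventually (hU.mem_nhds hu)).exists
  have h3 : AE (fun i : ℕ => if i < n then u i else z η i) (z η) :=
    ⟨n, fun i hi => if_neg (not_lt.2 hi)⟩
  exact mem_biUnion (show _ ∈ FM z ∩ U from ⟨⟨η, h3⟩, hn⟩) h3.symm

end Pool.Agent.Q212.BL
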