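import Pool.Agent.Q212.BL.Refute

/-!
# Borel maps between dense sets of size `ℵ₁`, and powers of `2`
-/

set_option autoImplicit false

open Cardinal Set Filter Topology

namespace Pool.Agent.Q212.BL

variable {α : Type}

/-- `f` is a Borel map: the preimages of the open sets are Borel sets. -/
def BorelMap {X Y : Type} [TopologicalSpace X] [TopologicalSpace Y] (f : X → Y) : Prop :=
  ∀ U : Set Y, IsOpen U → @MeasurableSet X (borel X) (f ⁻¹' U)

/-- For all `ℵ₁`-dense sets `A`, `B` some Borel map of the space into itself maps `A` onto an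
uncountable subset of `B`. -/
def WeakBorel (α : Type) [TopologicalSpace α] : Prop :=
  ∀ A B : Set (ℕ → α), Dense1 A → Dense1 B →
    ∃ f : (ℕ → α) → ℕ → α, BorelMap f ∧ MapsTo f A B ∧ ¬ (f '' A).Countable

theorem exists_code : ∃ u : (Σ η : W, Set (Iic η)) → ℕ → Bool, Function.Injective u := by
  have h : #(Σ η : W, Set (Iic η)) ≤ #(ℕ → Bool) := by
    rw [mk_sigma]
    have h1 : ∀ η : W, #(Set (Iic η)) ≤ 𝔠 := by
      intro η
      rw [mk_set, ← two_power_aleph0]
      exact power_le_power_left two_ne_zero (countable_Iic η).le_aleph0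
    refine (sum_le_sum _ _ h1).trans ?_
    rw [sum_const', mk_W]
    have h2 : #(ℕ → Bool) = 𝔠 := by simp
    rw [h2, mul_eq_right aleph0_le_continuum aleph_one_le_continuum
      (aleph0_pos.trans aleph0_lt_aleph_one).ne']
  obtain ⟨f⟩ := Cardinal.le_def _ _ |>.1 h
  exact ⟨f, f.injective⟩

section

variable (c : Bool → α) (u : (Σ η : W, Set (Iic η)) → ℕ → Bool)

/-- the sequence which codes `η` and the part of `X` below `η`, every bit infinitely often -/
def zX (X : Set W) (η : W) (i : ℕ) : α := c (u ⟨η, {ζ | ζ.1 ∈ X}⟩ (Nat.unpair i).2)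

theorem zX_AE (hc : Function.Injective c) (hu : Function.Injective u) {X Y : Set W} {η η' : W}
    (h : AE (zX c u X η) (zX c u Y η')) : η = η' ∧ ∀ ζ ≤ η, ζ ∈ X ↔ ζ ∈ Y := by
  obtain ⟨n, hn⟩ := h
  have h1 : u ⟨η, {ζ | ζ.1 ∈ X}⟩ = u ⟨η', {ζ | ζ.1 ∈ Y}⟩ := by
    funext k
    have h2 := hn (Nat.pair n k) (Nat.left_le_pair _ _)
    simp only [zX, Nat.unpair_pair] at h2
    exact hc h2
  have h3 := hu h1
  have h4 : η = η' := congrArg Sigma.fst h3
  subst h4
  have h5 : {ζ : Iic η | ζ.1 ∈ X} = {ζ : Iic η | ζ.1 ∈ Y} := by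
    simpa using h3
  refine ⟨rfl, fun ζ hζ => ?_⟩
  have h6 := Set.ext_iff.1 h5 ⟨ζ, hζ⟩
  exact h6

theorem dense1_zX [Countable α] [TopologicalSpace α] (hc : Function.Injective c)
    (hu : Function.Injective u) (X : Set W) : Dense1 (FM (zX c u X)) := by
  refine dense1_FM _ fun h => not_countable_univ ?_
  rw [← image_univ] at h
  refine Set.countable_of_injective_of_countable_image (f := zX c u X) ?_ h
  intro η _ η' _ hh
  exact (zX_AE c u hc hu ⟨0, fun i _ => congrFun hh i⟩).1

end

theorem mk_borel_le (X : Type) [TopologicalSpace X] [SecondCountableTopology X] :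
    #{s : Set X // @MeasurableSet X (borel X) s} ≤ 𝔠 := by
  have h1 := (TopologicalSpace.isBasis_countableBasis X).borel_eq_generateFrom
  rw [h1]
  exact MeasurableSpace.cardinal_measurableSet_le_continuum
    ((TopologicalSpace.countable_countableBasis X).le_aleph0.trans aleph0_le_continuum)

theorem isOpen_cyl [TopologicalSpace α] [DiscreteTopology α] (q : ℕ × α) :
    IsOpen {y : ℕ → α | y q.1 = q.2} := by
  have h : Continuous fun y : ℕ → α => y q.1 := continuous_apply q.1
  exact (isOpen_discrete ({q.2} : Set α)).preimage h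

theorem mk_borelMap_le [Countable α] [TopologicalSpace α] [DiscreteTopology α] :
    #{f : (ℕ → α) → ℕ → α // BorelMap f} ≤ 𝔠 := by
  have ho : ∀ q : ℕ × α, IsOpen {y : ℕ → α | y q.1 = q.2} := isOpen_cyl
  have h1 : Function.Injective fun (f : {f : (ℕ → α) → ℕ → α // BorelMap f}) (q : ℕ × α) =>
      (⟨f.1 ⁻¹' {y | y q.1 = q.2}, f.2 _ (ho q)⟩ :
        {s : Set (ℕ → α) // @MeasurableSet (ℕ → α) (borel (ℕ → α)) s}) := by
    intro f g h
    apply Subtype.ext
    funext x i
    have h2 : f.1 ⁻¹' {y | y i = f.1 x i} = g.1 ⁻¹' {y | y i = f.1 x i} :=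
      congrArg Subtype.val (congrFun h (i, f.1 x i))
    have h3 : x ∈ f.1 ⁻¹' {y | y i = f.1 x i} := rfl
    rw [h2] at h3
    exact (show g.1 x i = f.1 x i from h3).symm
  refine (mk_le_of_injective h1).trans ?_
  rw [mk_arrow, lift_id, lift_id]
  calc #{s : Set (ℕ → α) // @MeasurableSet (ℕ → α) (borel (ℕ → α)) s} ^ #(ℕ × α) ≤ 𝔠 ^ #(ℕ × α) :=
        power_le_power_right (mk_borel_le _)
    _ ≤ 𝔠 ^ ℵ₀ := power_le_power_left continuum_pos.ne' mk_le_aleph0
    _ = 𝔠 := continuum_power_aleph0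

theorem two_power_eq [Countable α] [TopologicalSpace α] [DiscreteTopology α] (c : Bool → α)
    (hc : Function.Injective c) (h : WeakBorel α) :
    (2 : Cardinal.{0}) ^ (ℵ₀ : Cardinal.{0}) = 2 ^ (ℵ₁ : Cardinal.{0}) := by
  obtain ⟨u, hu⟩ := exists_code
  refine le_antisymm (power_le_power_left two_ne_zero aleph0_lt_aleph_one.le) ?_
  choose f h1 h2 h3 using fun X : Set W =>
    h (FM (zX c u ∅)) (FM (zX c u X)) (dense1_zX c u hc hu ∅) (dense1_zX c u hc hu X)
  have h4 : Function.Injective fun X : Set W =>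
      (⟨f X, h1 X⟩ : {f : (ℕ → α) → ℕ → α // BorelMap f}) := by
    intro X Y hXY
    have hXY' : f X = f Y := congrArg Subtype.val hXY
    have h5 : ∀ y ∈ f X '' FM (zX c u ∅), ∃ η, AE y (zX c u X η) ∧ ∀ ζ ≤ η, ζ ∈ X ↔ ζ ∈ Y := by
      rintro _ ⟨x, hx, rfl⟩
      obtain ⟨η, hη⟩ := h2 X hx
      obtain ⟨η', hη'⟩ := h2 Y hx
      rw [← hXY'] at hη'
      exact ⟨η, hη, (zX_AE c u hc hu (hη.symm.trans hη')).2⟩
    ext ζ
    by_contra hne
    apply h3 X
    refine ((countable_Iic ζ).biUnion fun η _ => countable_AE (zX c u X η)).mono fun y hy => ?_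
    obtain ⟨η, hη, hη2⟩ := h5 y hy
    refine mem_biUnion (show η ∈ Iic ζ from ?_) hη
    by_contra hlt
    exact hne (hη2 ζ (not_le.1 hlt).le)
  have h6 := (mk_le_of_injective h4).trans mk_borelMap_le
  rwa [mk_set, mk_W, ← two_power_aleph0] at h6

/-- A set with `ℵ₁` points in every nonempty open set is uncountable. -/
theorem Dense1.not_countable [Nonempty α] [TopologicalSpace α] {A : Set (ℕ → α)}
    (hA : Dense1 A) : ¬ A.Countable := by
  intro h
  have h1 := hA univ isOpen_univ univ_nonempty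
  rw [inter_univ] at h1
  have h2 := h.le_aleph0
  rw [h1] at h2
  exact not_le.2 aleph0_lt_aleph_one h2

/-- Lipschitz maps are continuous. -/
theorem Lip.continuous [TopologicalSpace α] [DiscreteTopology α] {f : (ℕ → α) → ℕ → α}
    (hf : Lip f) : Continuous f := by
  refine continuous_pi fun j => continuous_iff_continuousAt.2 fun x => ?_
  refine tendsto_pure.2 ?_ |>.mono_right (pure_le_nhds _)
  have h1 : {y : ℕ → α | ∀ i ∈ Finset.range (j + 1), y i = x i} ∈ 𝓝 x := by
    have h2 : {y : ℕ → α | ∀ i ∈ Finset.range (j + 1), y i = x i} =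
        ⋂ i ∈ Finset.range (j + 1), {y : ℕ → α | y i = x i} := by
      ext y
      simp
    rw [h2]
    refine (Filter.biInter_finset_mem _).2 fun i _ => ?_
    exact (isOpen_cyl (i, x i)).mem_nhds rfl
  filter_upwards [h1] with y hy
  exact hf (j + 1) y x (fun i hi => hy i (Finset.mem_range.2 hi)) j (Nat.lt_succ_self j)

theorem BALip.weakBorel [Nonempty α] [TopologicalSpace α] [DiscreteTopology α] (h : BALip α) :
    WeakBorel α := by
  intro A B hA hB
  obtain ⟨f, h1, h2, h3⟩ := h A B hA hB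
  refine ⟨f, fun U hU => ?_, h3, fun hc => hA.not_countable
    (Set.countable_of_injective_of_countable_image h2 hc)⟩
  exact MeasurableSpace.measurableSet_generateFrom (hU.preimage h1.continuous)

end Pool.Agent.Q212.BL
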