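import Pool.Agent.Q212.BL.Basic

/-!
# Two dense sets of size `ℵ₁` without injections of a given modulus of continuity
-/

set_option autoImplicit false

open Cardinal Set Filter Topology

namespace Pool.Agent.Q212.BL

variable {α : Type}

/-- `f` has eventually the modulus of continuity `m`: for all large `k` the first `m k` terms of
`x` determine the first `k` terms of `f x`. -/
def EvMod (m : ℕ → ℕ) {A B : Set (ℕ → α)} (f : A → B) : Prop :=
  ∃ K, ∀ k, K ≤ k → ∀ x y : A, (∀ i < m k, x.1 i = y.1 i) → ∀ i < k, (f x).1 i = (f y).1 i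

section construction

variable (c : Bool → α) (p : ℕ → ℕ) (x : W → ℕ → Bool) (e : W → ℕ → W)

open Classical in
/-- the sparse sequences -/
noncomputable def sa (ξ : W) (i : ℕ) : α := c (decide (∃ j, p j = i ∧ x ξ j = true))

/-- the sequences which contain all earlier data -/
def sb (η : W) (i : ℕ) : α := c (x (e η (Nat.unpair i).2) (Nat.unpair i).1)

theorem sa_apply (hp : Function.Injective p) (ξ : W) (j : ℕ) :
    sa c p x ξ (p j) = c (x ξ j) := by
  unfold sa
  congr 1
  rw [Bool.eq_iff_iff]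
  simp only [decide_eq_true_eq]
  constructor
  · rintro ⟨j', h1, h2⟩
    rwa [hp h1] at h2
  · intro h
    exact ⟨j, rfl, h⟩

theorem sb_pair (η : W) (j k : ℕ) : sb c x e η (Nat.pair j k) = c (x (e η k) j) := by
  simp [sb]

theorem sa_injective (hc : Function.Injective c) (hp : Function.Injective p)
    (hx : Function.Injective x) : Function.Injective (sa c p x) := by
  intro ξ ξ' h
  apply hx
  funext j
  apply hc
  rw [← sa_apply c p x hp, ← sa_apply c p x hp, h]

theorem sa_range (hc : Function.Injective c) (hp : Function.Injective p)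
    (hx : Function.Injective x) : ¬ (range (sa c p x)).Countable := by
  intro h
  have h1 : (univ : Set W).Countable := by
    rw [← image_univ] at h
    exact Set.countable_of_injective_of_countable_image
      (sa_injective c p x hc hp hx).injOn h
  exact not_countable_univ h1

theorem sb_range (hc : Function.Injective c) (hx : Function.Injective x)
    (he : ∀ η ξ, ξ ≤ η → ∃ k, e η k = ξ) : ¬ (range (sb c x e)).Countable := by
  intro h
  have h1 : (range fun ξ => c ∘ x ξ).Countable := by
    refine (h.biUnion fun y _ => countable_range fun k : ℕ => fun j : ℕ => y (Nat.pair j k)).mono ?_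
    rintro _ ⟨ξ, rfl⟩
    obtain ⟨k, hk⟩ := he ξ ξ le_rfl
    refine mem_biUnion (mem_range_self ξ) ⟨k, ?_⟩
    funext j
    simp only [sb_pair, hk, Function.comp]
  have h2 : (univ : Set W).Countable := by
    rw [← image_univ] at h1
    refine Set.countable_of_injective_of_countable_image (f := fun ξ => c ∘ x ξ) ?_ h1
    intro ξ _ ξ' _ hh
    apply hx
    funext j
    exact hc (congrFun hh j)
  exact not_countable_univ h2

theorem no_injection [Countable α] (hc : Function.Injective c) (m : ℕ → ℕ) (hp : StrictMono p)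
    (hpm : ∀ j, m ((j + 1) ^ 2) ≤ p j) (hx : Function.Injective x)
    (he : ∀ η ξ, ξ ≤ η → ∃ k, e η k = ξ) (f : FM (sa c p x) → FM (sb c x e))
    (hf : Function.Injective f) : ¬ EvMod m f := by
  rintro ⟨K, hK⟩
  let a : W → FM (sa c p x) := fun ξ => ⟨sa c p x ξ, ξ, AE.refl _⟩
  have ha : Function.Injective a := fun ξ ξ' h =>
    sa_injective c p x hc hp.injective hx (congrArg Subtype.val h)
  choose η n hn using fun ξ => (f (a ξ)).2
  have hfib : ∀ γ, {ξ | η ξ = γ}.Countable := by
    intro γ
    have h1 : Function.Injective fun ξ => (f (a ξ)).1 :=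
      Subtype.val_injective.comp (hf.comp ha)
    have h2 := (countable_AE (sb c x e γ)).preimage h1
    refine h2.mono fun ξ hξ => ?_
    refine ⟨n ξ, fun i hi => ?_⟩
    have h3 := hn ξ i hi
    rw [show η ξ = γ from hξ] at h3
    exact h3
  have hZ := not_countable_le hfib
  -- indices
  have hk : ∀ ξ, ∃ k, ξ ≤ η ξ → e (η ξ) k = ξ := by
    intro ξ
    by_cases h : ξ ≤ η ξ
    · obtain ⟨k, hk⟩ := he _ _ h
      exact ⟨k, fun _ => hk⟩
    · exact ⟨0, fun h' => absurd h' h⟩
  choose k hk using hk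
  let J : W → ℕ := fun ξ => max (n ξ) (max (k ξ) K)
  let inv : W → ℕ × ℕ × List Bool := fun ξ => (k ξ, J ξ, (List.range (J ξ)).map (x ξ))
  obtain ⟨ξ, hξ, ξ', hξ', hne, heq⟩ : ∃ ξ, ξ ≤ η ξ ∧ ∃ ξ', ξ' ≤ η ξ' ∧ ξ ≠ ξ' ∧
      inv ξ = inv ξ' := by
    by_contra hcon
    push Not at hcon
    refine hZ (Set.countable_of_injective_of_countable_image (f := inv) ?_ (to_countable _))
    intro ξ hξ ξ' hξ' h
    by_contra hne
    exact hcon ξ hξ ξ' hξ' hne h
  have e1 : k ξ = k ξ' := congrArg Prod.fst heq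
  have e2 : J ξ = J ξ' := congrArg (fun t => t.2.1) heq
  have e3 : (List.range (J ξ)).map (x ξ) = (List.range (J ξ')).map (x ξ') :=
    congrArg (fun t => t.2.2) heq
  rw [← e2] at e3
  have e4 : ∀ i < J ξ, x ξ i = x ξ' i := by
    intro i hi
    exact List.map_inj_left.1 e3 i (List.mem_range.2 hi)
  have hdiff : ∃ j, x ξ j ≠ x ξ' j := by
    by_contra hcon
    push Not at hcon
    exact hne (hx (funext hcon))
  classical
  let j := Nat.find hdiff
  have hj : x ξ j ≠ x ξ' j := Nat.find_spec hdiff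
  have hj' : ∀ i < j, x ξ i = x ξ' i := fun i hi => by
    have := Nat.find_min hdiff hi
    push Not at this
    exact this
  have hJj : J ξ ≤ j := by
    by_contra hlt
    exact hj (e4 j (not_le.1 hlt))
  have hag : ∀ i < p j, (a ξ).1 i = (a ξ').1 i := by
    intro i hi
    show sa c p x ξ i = sa c p x ξ' i
    unfold sa
    congr 1
    rw [Bool.eq_iff_iff]
    simp only [decide_eq_true_eq]
    refine exists_congr fun l => and_congr_right fun hl => ?_
    rw [hj' l (hp.lt_iff_lt.1 (hl ▸ hi))]
  have hlt : K ≤ (j + 1) ^ 2 := by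
    have h1 : K ≤ j := ((le_max_right _ _).trans (le_max_right _ _)).trans hJj
    nlinarith
  have h5 := hK ((j + 1) ^ 2) hlt (a ξ) (a ξ')
    (fun i hi => hag i (lt_of_lt_of_le hi (hpm j))) (Nat.pair j (k ξ)) (by
      have h1 : k ξ ≤ j := ((le_max_left _ _).trans (le_max_right _ _)).trans hJj
      have h2 := Nat.pair_lt_max_add_one_sq j (k ξ)
      rwa [max_eq_left h1] at h2)
  have h6 : j ≤ Nat.pair j (k ξ) := Nat.left_le_pair _ _
  have h7 : n ξ ≤ Nat.pair j (k ξ) := ((le_max_left _ _).trans hJj).trans h6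
  have h8 : n ξ' ≤ Nat.pair j (k ξ) := ((le_max_left _ _).trans (e2 ▸ hJj)).trans h6
  rw [hn ξ _ h7, hn ξ' _ h8, sb_pair, hk ξ hξ, e1, sb_pair, hk ξ' hξ'] at h5
  exact hj (hc h5)

end construction

/-- For every modulus `m` there are dense sets `A`, `B` of size `ℵ₁` such that no injection of `A`
into `B` has eventually the modulus `m`. -/
theorem exists_pair [Countable α] [TopologicalSpace α] (c : Bool → α) (hc : Function.Injective c)
    (m : ℕ → ℕ) : ∃ A B : Set (ℕ → α), Dense1 A ∧ Dense1 B ∧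
      ∀ f : A → B, Function.Injective f → ¬ EvMod m f := by
  obtain ⟨x, hx⟩ := exists_injective_bool
  choose e he using exists_enum
  let p : ℕ → ℕ := fun j => j + ∑ i ∈ Finset.range (j + 1), m ((i + 1) ^ 2)
  have hp : StrictMono p := by
    refine strictMono_nat_of_lt_succ fun j => ?_
    have h1 : ∑ i ∈ Finset.range (j + 1 + 1), m ((i + 1) ^ 2) =
        ∑ i ∈ Finset.range (j + 1), m ((i + 1) ^ 2) + m ((j + 1 + 1) ^ 2) :=
      Finset.sum_range_succ _ _
    show j + ∑ i ∈ Finset.range (j + 1), m ((i + 1) ^ 2) <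
      j + 1 + ∑ i ∈ Finset.range (j + 1 + 1), m ((i + 1) ^ 2)
    rw [h1]
    omega
  have hpm : ∀ j, m ((j + 1) ^ 2) ≤ p j := by
    intro j
    have h1 : ∑ i ∈ Finset.range (j + 1), m ((i + 1) ^ 2) =
        ∑ i ∈ Finset.range j, m ((i + 1) ^ 2) + m ((j + 1) ^ 2) := Finset.sum_range_succ _ _
    show m ((j + 1) ^ 2) ≤ j + ∑ i ∈ Finset.range (j + 1), m ((i + 1) ^ 2)
    rw [h1]
    omega
  exact ⟨FM (sa c p x), FM (sb c x e), dense1_FM _ (sa_range c p x hc hp.injective hx),
    dense1_FM _ (sb_range c x e hc hx he),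
    fun f hf => no_injection c p x e hc m hp hpm hx he f hf⟩

/-- `f` is Lipschitz with constant `1` for the metric `2 ^ (-k)`, `k` the first difference. -/
def Lip (f : (ℕ → α) → ℕ → α) : Prop :=
  ∀ (k : ℕ) (x y : ℕ → α), (∀ i < k, x i = y i) → ∀ i < k, f x i = f y i

/-- The Lipschitz Baumgartner axiom for the space of the sequences in `α`: for all `ℵ₁`-dense sets
`A`, `B` some Lipschitz map of the space into itself is injective on `A` and maps `A` into `B`. -/
def BALip (α : Type) [TopologicalSpace α] : Prop :=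
  ∀ A B : Set (ℕ → α), Dense1 A → Dense1 B → ∃ f : (ℕ → α) → ℕ → α, Lip f ∧ InjOn f A ∧ MapsTo f A B

theorem not_BALip [Countable α] [TopologicalSpace α] (c : Bool → α) (hc : Function.Injective c) :
    ¬ BALip α := by
  intro h
  obtain ⟨A, B, hA, hB, hf⟩ := exists_pair c hc fun k => k
  obtain ⟨f, h1, h2, h3⟩ := h A B hA hB
  refine hf (fun x => ⟨f x.1, h3 x.2⟩) (fun x y hxy => Subtype.ext (h2 x.2 y.2
    (congrArg Subtype.val hxy))) ⟨0, fun k _ x y hxy i hi => h1 k x.1 y.1 hxy i hi⟩

end Pool.Agent.Q212.BL
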